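import Pool.Agent.Helper480_Flip.RedPoly

/-!
# Finding a shortest sequence of flips that convexifies a polygon is NP-hard
-/

namespace Pool.Agent.Results.MP_bfe50c_lc.ShortestNPHard

open Pool.Agent.NPC Pool.Agent.Helper480_Flip Pool.Agent.NPC.R671.SS Pool.Agent.NPC.Flip480

/-- The promise on the input `(P, k)`: `P` is a simple polygon with `k + 6` vertices, it can be
convexified by `k + 1` flips, and every sequence of flips that convexifies it has `k` or `k + 1`
flips. -/
def Promise (I : List (ℚ × ℚ) × ℕ) : Prop :=
  I.1.length = I.2 + 6 ∧ IsSimple I.1.length (vertices I.1) ∧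
  ConvexifiesIn I.1.length (I.2 + 1) (vertices I.1) ∧
  ∀ t, ConvexifiesIn I.1.length t (vertices I.1) → t = I.2 ∨ t = I.2 + 1

theorem rsum_false (l : List ℕ) (j : ℕ) : rsum l (fun _ => false) j = 0 := by
  simp [rsum]

theorem promise (I : List ℕ × ℕ) (hI : Nice I) : Promise (rP true I, 3 * rm I + 1) := by
  obtain ⟨h1, h2⟩ := rP_main true I hI
  refine ⟨by rw [rP_length], h1, ?_, ?_⟩
  · refine (h2 _).2 ⟨fun _ => false, ?_⟩
    rw [rho_short I hI, if_neg ?_]
    rw [rsum_false]
    intro h0
    obtain ⟨ha, hs⟩ := hI
    rcases I with ⟨l, T⟩
    simp only at h0 ha hs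
    subst h0
    cases l with
    | nil => simp at hs
    | cons a l => exact absurd (ha a (by simp)).2 (by omega)
  · intro t ht
    obtain ⟨c, hc⟩ := (h2 t).1 ht
    rw [rho_short I hI] at hc
    split_ifs at hc
    · left; exact hc
    · right; exact hc

/-- The decision problem SHORTEST (given a simple polygon `P` with rational vertex coordinates and
a number `k`, is there a sequence of at most `k` flips which convexifies `P`?) is NP-hard under
polynomial-time many-one reductions, even for instances with the promise that `P` has `k + 6`
vertices, that some sequence of `k + 1` flips convexifies `P`, and that every sequence of flips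
which convexifies `P` has `k` or `k + 1` flips: every language `L` in `NP` has a reduction `f`,
computable in polynomial time, to SHORTEST such that `f x` satisfies the promise for all `x`. -/
theorem result : ∀ L : Set (List Bool), InNP L → ∃ f : List Bool → List (ℚ × ℚ) × ℕ,
    PolyTime (fun x => bits (f x)) ∧ (∀ x, Promise (f x)) ∧ ∀ x, x ∈ L ↔ Shortest (f x) := by
  intro L hL
  obtain ⟨f, hf, hp, hfL⟩ := (hardPr_SubsetSum.trans (Pr' := Promise) poly_short
    (fun I hI => promise I hI) (fun I hI => correct_short I hI)) L hL
  exact ⟨f, PC.toPolyTime hf, hp, hfL⟩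

end Pool.Agent.Results.MP_bfe50c_lc.ShortestNPHard
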